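import Pool.Agent.W872.SV.Stm

/-! Project SV (owner helper872), part DEG, copy 2: the degree criterion. -/

set_option autoImplicit false

namespace Pool.Agent.W71.SV.DEGb

open scoped Classical
open W872.SV

theorem dg_iso {n : ℕ} {G H : SimpleGraph (Fin n)} (e : G ≃g H) (x : Fin n) : dg H (e x) = dg G x := by
  unfold dg
  symm
  apply Finset.card_bij (fun y _ => e y)
  · intro y hy
    simp only [Finset.mem_filter, Finset.mem_univ, true_and] at hy ⊢
    exact e.map_adj_iff.mpr hy
  · intro a _ b _ h; exact e.injective h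
  · intro b hb
    simp only [Finset.mem_filter, Finset.mem_univ, true_and] at hb
    refine ⟨e.symm b, ?_, by simp⟩
    simp only [Finset.mem_filter, Finset.mem_univ, true_and]
    rw [← e.map_adj_iff]
    simpa using hb

theorem sw_iff {n : ℕ} (G : SimpleGraph (Fin n)) (i a b : Fin n) :
    (sw G i).Adj a b ↔ a ≠ b ∧ (G.Adj a b ↔ (a ≠ i ∧ b ≠ i)) := Iff.rfl

/-- neighbours of `x` other than `i` and `x`: the degree splits -/
theorem dg_sw_self {n : ℕ} (G : SimpleGraph (Fin n)) (i : Fin n) : dg (sw G i) i + dg G i + 1 = n := by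
  unfold dg
  have h : (Finset.univ.filter (fun y => (sw G i).Adj i y)) =
      (Finset.univ.filter (fun y => ¬ G.Adj i y)).erase i := by
    ext y
    simp only [Finset.mem_filter, Finset.mem_univ, true_and, Finset.mem_erase, sw_iff]
    constructor
    · rintro ⟨h1, h2⟩
      exact ⟨h1.symm, fun h => (h2.mp h).1 rfl⟩
    · rintro ⟨h1, h2⟩
      exact ⟨h1.symm, ⟨fun h => absurd h h2, fun h => absurd rfl h.1⟩⟩
  rw [h, Finset.card_erase_of_mem (by simp)]
  have h2 := Finset.card_filter_add_card_filter_not (s := (Finset.univ : Finset (Fin n))) (fun y => G.Adj i y)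
  rw [Finset.card_univ, Fintype.card_fin] at h2
  have h3 : 0 < (Finset.univ.filter (fun y => ¬ G.Adj i y)).card := Finset.card_pos.mpr ⟨i, by simp⟩
  omega

theorem dg_sw_adj {n : ℕ} (G : SimpleGraph (Fin n)) {i w : Fin n} (hw : w ≠ i) (h : G.Adj i w) :
    dg (sw G i) w + 1 = dg G w := by
  unfold dg
  have h1 : (Finset.univ.filter (fun y => (sw G i).Adj w y)) =
      (Finset.univ.filter (fun y => G.Adj w y)).erase i := by
    ext y
    simp only [Finset.mem_filter, Finset.mem_univ, true_and, Finset.mem_erase, sw_iff]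
    constructor
    · rintro ⟨h1, h2⟩
      have h3 : y ≠ i := by
        rintro rfl
        exact (h2.mp h.symm).2 rfl
      exact ⟨h3, h2.mpr ⟨hw, h3⟩⟩
    · rintro ⟨h1, h2⟩
      exact ⟨h2.ne, ⟨fun _ => ⟨hw, h1⟩, fun _ => h2⟩⟩
  rw [h1, Finset.card_erase_of_mem (by simpa using h.symm)]
  have h3 : 0 < (Finset.univ.filter (fun y => G.Adj w y)).card := Finset.card_pos.mpr ⟨i, by simpa using h.symm⟩
  omega

theorem dg_sw_nadj {n : ℕ} (G : SimpleGraph (Fin n)) {i w : Fin n} (hw : w ≠ i) (h : ¬ G.Adj i w) :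
    dg (sw G i) w = dg G w + 1 := by
  unfold dg
  have h1 : (Finset.univ.filter (fun y => (sw G i).Adj w y)) =
      insert i (Finset.univ.filter (fun y => G.Adj w y)) := by
    ext y
    simp only [Finset.mem_filter, Finset.mem_univ, true_and, Finset.mem_insert, sw_iff]
    constructor
    · rintro ⟨h1, h2⟩
      by_cases h3 : y = i
      · exact Or.inl h3
      · exact Or.inr (h2.mpr ⟨hw, h3⟩)
    · rintro (rfl | h2)
      · exact ⟨hw, ⟨fun h4 => absurd h4.symm h, fun h4 => absurd rfl h4.2⟩⟩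
      · have h3 : y ≠ i := by
          rintro rfl
          exact h h2.symm
        exact ⟨h2.ne, ⟨fun _ => ⟨hw, h3⟩, fun _ => h2⟩⟩
  rw [h1, Finset.card_insert_of_notMem (by simpa using fun h4 : G.Adj w i => h h4.symm)]

theorem iso_of_sw {n : ℕ} {G H : SimpleGraph (Fin n)} {i j : Fin n} (e : sw G i ≃g sw H j) (he : e i = j) :
    Nonempty (G ≃g H) := by
  refine ⟨⟨e.toEquiv, ?_⟩⟩
  intro a b
  by_cases hab : a = b
  · subst hab; simp
  have h1 := e.map_adj_iff (v := a) (w := b)
  rw [sw_iff, sw_iff] at h1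
  have h2 : e a ≠ e b := fun h => hab (e.injective h)
  have h3 : ∀ c, (e c ≠ j ↔ c ≠ i) := by
    intro c
    constructor
    · intro h4 h5
      exact h4 (by rw [h5]; exact he)
    · intro h4 h5
      exact h4 (e.injective (h5.trans he.symm))
  rw [h3, h3] at h1
  change H.Adj (e a) (e b) ↔ G.Adj a b
  tauto



theorem main : W872.SV.PartEDG → W872.SV.PartDEG := by
  intro hE n hn G ⟨i, hi⟩ H ⟨σ, hσ⟩
  obtain ⟨e⟩ := hσ i
  have hdeg := hE n hn G H σ hσ i
  obtain ⟨w, hw⟩ : ∃ w, e w = σ i := ⟨e.symm (σ i), by simp⟩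
  by_cases hwi : w = i
  · subst hwi
    exact iso_of_sw e hw
  exfalso
  have h1 := dg_iso e w
  rw [hw] at h1
  have h2 := dg_sw_self H (σ i)
  have h3 := hi w hwi
  by_cases had : G.Adj i w
  · have h4 := dg_sw_adj G hwi had
    have h5 := h3.1 had
    omega
  · have h4 := dg_sw_nadj G hwi had
    have h5 := h3.2 had
    omega

end Pool.Agent.W71.SV.DEGb
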